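import Mathlib

/-!
# The sharp sum `ζ♯(2, 1_{d-3}, 2̄)`

`ζ♯(2, 1_{d-3}, 2̄) = -2 ∑_k (H_{2k} - H_k) / k ^ d`. This equals the conjectured value exactly for even `d`.
-/

set_option autoImplicit false

namespace Pool.Agent.Results.MP_27090e_nt.SharpSumParity

open Finset Filter Topology

/-- Entries: the absolute value and the sign. -/
abbrev Entry := ℕ × ℤˣ

/-- `s ⊕ t`: absolute values add, signs multiply. -/
def oplus (s t : Entry) : Entry := (s.1 + t.1, s.2 * t.2)

/-- The factor `ε(s) ^ n / n ^ |s|`. -/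
noncomputable def term (s : Entry) (n : ℕ) : ℝ := ((s.2 : ℤ) : ℝ) ^ n / (n : ℝ) ^ s.1

/-- The Euler sum `ζ(s_1, ..., s_k)`, the sum over all `0 < n_1 < ... < n_k`. -/
noncomputable def eulerSum (s : List Entry) : ℝ :=
  ∑' n : {n : Fin s.length → ℕ // StrictMono n ∧ ∀ i, 0 < n i}, ∏ j, term (s.get j) (n.1 j)

/-- The strings `s_1 ∘ ... ∘ s_k` in which each `∘` is a comma or `⊕`. -/
def strings : List Entry → List (List Entry)
  | [] => []
  | [s] => [[s]]
  | s :: t :: r => (strings (t :: r)).map (fun u => s :: u) ++ strings (oplus s t :: r)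
  termination_by l => l.length

/-- The Euler sharp sum. -/
noncomputable def sharp (s : List Entry) : ℝ :=
  ((strings s).map fun t => 2 ^ t.length * eulerSum t).sum

section Tail

/-- comparison function. -/
noncomputable def g (n : ℕ) : ℝ := 1 / ((n : ℝ) * √((n : ℝ) + 1))

theorem g_nonneg (n : ℕ) : 0 ≤ g n := by unfold g; positivity

theorem g_le (n : ℕ) (hn : 0 < n) : g n ≤ 3 * (1 / √(n : ℝ) - 1 / √((n : ℝ) + 1)) := by
  have hn' : (1 : ℝ) ≤ n := by exact_mod_cast hn
  set a := √(n : ℝ) with ha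
  set b := √((n : ℝ) + 1) with hb
  have ha0 : 0 < a := Real.sqrt_pos.2 (by linarith)
  have hb0 : 0 < b := Real.sqrt_pos.2 (by linarith)
  have ha2 : a ^ 2 = n := Real.sq_sqrt (by linarith)
  have hb2 : b ^ 2 = n + 1 := Real.sq_sqrt (by linarith)
  have hab : a ≤ b := Real.sqrt_le_sqrt (by linarith)
  unfold g
  rw [← hb, ← ha2, div_sub_div _ _ ha0.ne' hb0.ne', ← mul_div_assoc, div_le_div_iff₀ (by positivity) (by positivity)]
  have h1 : (b - a) * (b + a) = 1 := by nlinarith
  have h2 : 3 * a ≥ b + a := by nlinarith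
  have h3 : 1 ≤ 3 * a * (b - a) := by
    calc (1 : ℝ) = (b - a) * (b + a) := h1.symm
      _ ≤ (b - a) * (3 * a) := by
        apply mul_le_mul_of_nonneg_left h2; linarith
      _ = 3 * a * (b - a) := by ring
  nlinarith [mul_pos ha0 hb0]

theorem g_sum_le (m N : ℕ) : ∑ n ∈ range N, (if m < n then g n else 0) ≤ 3 / √((m : ℝ) + 1) := by
  have key : ∀ N : ℕ, ∑ n ∈ range N, (if m < n then g n else 0) ≤
      3 * (1 / √((m : ℝ) + 1) - 1 / √((max N (m + 1) : ℕ) : ℝ)) := by
    intro N
    induction N with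
    | zero => simp
    | succ N ih =>
      rw [sum_range_succ]
      split_ifs with h
      · have e1 : max N (m + 1) = N := by omega
        have e2 : max (N + 1) (m + 1) = N + 1 := by omega
        rw [e1] at ih
        rw [e2]
        have := g_le N (by omega)
        push_cast
        linarith
      · have e1 : max N (m + 1) = m + 1 := by omega
        have e2 : max (N + 1) (m + 1) = m + 1 := by omega
        rw [e1] at ih
        rw [e2]
        linarith
  refine (key N).trans ?_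
  have : 0 ≤ 1 / √((max N (m + 1) : ℕ) : ℝ) := by positivity
  have e : 3 / √((m : ℝ) + 1) = 3 * (1 / √((m : ℝ) + 1)) := by ring
  rw [e]
  linarith

theorem tail (f : ℕ → ℝ) (C : ℝ) (hC : 0 ≤ C) (hf : ∀ n, 0 < n → |f n| ≤ C * g n) (m : ℕ) :
    Summable (fun n => if m < n then f n else 0) ∧
    |∑' n, (if m < n then f n else 0)| ≤ 3 * C * (1 / √((m : ℝ) + 1)) := by
  have h1 : Summable (fun n => if m < n then g n else 0) := by
    apply summable_of_sum_range_le (c := 3 / √((m : ℝ) + 1))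
    · intro n; split_ifs
      · exact g_nonneg n
      · exact le_rfl
    · exact g_sum_le m
  have h2 : ∑' n, (if m < n then g n else 0) ≤ 3 / √((m : ℝ) + 1) := by
    apply Real.tsum_le_of_sum_range_le
    · intro n; split_ifs
      · exact g_nonneg n
      · exact le_rfl
    · exact g_sum_le m
  have h3 : ∀ n, ‖(if m < n then f n else 0)‖ ≤ C * (if m < n then g n else 0) := by
    intro n
    split_ifs with h
    · exact hf n (by omega)
    · simp
  have h4 : Summable (fun n => ‖(if m < n then f n else 0)‖) :=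
    Summable.of_nonneg_of_le (fun _ => norm_nonneg _) h3 (h1.mul_left C)
  refine ⟨h4.of_norm, ?_⟩
  calc |∑' n, (if m < n then f n else 0)| ≤ ∑' n, ‖(if m < n then f n else 0)‖ := norm_tsum_le_tsum_norm h4
    _ ≤ ∑' n, C * (if m < n then g n else 0) := h4.tsum_le_tsum h3 (h1.mul_left C)
    _ = C * ∑' n, (if m < n then g n else 0) := tsum_mul_left
    _ ≤ C * (3 / √((m : ℝ) + 1)) := mul_le_mul_of_nonneg_left h2 hC
    _ = 3 * C * (1 / √((m : ℝ) + 1)) := by ring

end Tail

section Iter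

/-- iterated sums. -/
noncomputable def G : (k : ℕ) → (Fin k → ℕ → ℝ) → ℕ → ℝ
  | 0, _, _ => 1
  | k + 1, F, m => ∑' n : ℕ, if m < n then F 0 n * G k (fun i => F i.succ) n else 0

/-- all factors are `O(1/n)`, the last one is `O(1/n ^ 2)`. -/
def Adm (k : ℕ) (F : Fin k → ℕ → ℝ) : Prop :=
  (∀ i, ∀ n, 0 < n → |F i n| ≤ 1 / n) ∧ ∀ h : 0 < k, ∀ n, 0 < n → |F ⟨k - 1, by omega⟩ n| ≤ 1 / (n : ℝ) ^ 2

theorem Adm.tail {k : ℕ} {F : Fin (k + 1) → ℕ → ℝ} (h : Adm (k + 1) F) : Adm k (fun i => F i.succ) := by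
  refine ⟨fun i => h.1 i.succ, fun hk n hn => ?_⟩
  have := h.2 (by omega) n hn
  have e : (⟨k + 1 - 1, by omega⟩ : Fin (k + 1)) = (⟨k - 1, by omega⟩ : Fin k).succ := by
    ext; simp; omega
  rw [e] at this
  exact this

theorem G_bound : ∀ (k : ℕ) (F : Fin k → ℕ → ℝ), Adm k F →
    (0 < k → ∃ C, 0 ≤ C ∧ ∀ m, |G k F m| ≤ C * (1 / √((m : ℝ) + 1))) ∧
    (∀ k' (h : k = k' + 1), ∀ m, Summable fun n => if m < n then F ⟨0, by omega⟩ n * G k' (fun i => F (i.succ.cast h.symm)) n else 0) := by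
  intro k
  induction k with
  | zero => exact fun F _ => ⟨fun h => absurd h (by omega), fun k' h => by omega⟩
  | succ k ih =>
    intro F hF
    have hb : ∃ C, 0 ≤ C ∧ ∀ n, 0 < n → |F 0 n * G k (fun i => F i.succ) n| ≤ C * g n := by
      rcases Nat.eq_zero_or_pos k with rfl | hk
      · refine ⟨2, by norm_num, fun n hn => ?_⟩
        have h1 := hF.2 (by omega) n hn
        have h1' : |F 0 n| ≤ 1 / (n : ℝ) ^ 2 := h1
        have hn' : (1 : ℝ) ≤ n := by exact_mod_cast hn
        simp only [G, mul_one]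
        refine h1'.trans ?_
        unfold g
        rw [mul_one_div, div_le_div_iff₀ (by positivity) (by positivity)]
        have h2 : √((n : ℝ) + 1) ≤ 2 * n := by
          rw [Real.sqrt_le_left (by linarith)]
          nlinarith
        nlinarith
      · obtain ⟨C, hC, h1⟩ := (ih _ hF.tail).1 hk
        refine ⟨C, hC, fun n hn => ?_⟩
        rw [abs_mul]
        calc |F 0 n| * |G k (fun i => F i.succ) n| ≤ (1 / n) * (C * (1 / √((n : ℝ) + 1))) :=
              mul_le_mul (hF.1 0 n hn) (h1 n) (abs_nonneg _) (by positivity)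
          _ = C * g n := by unfold g; field_simp
    obtain ⟨C, hC, h1⟩ := hb
    refine ⟨fun _ => ⟨3 * C, by positivity, fun m => (tail _ C hC h1 m).2⟩, ?_⟩
    intro k' h m
    obtain rfl : k = k' := by omega
    exact (tail _ C hC h1 m).1

theorem G_summable {k : ℕ} {F : Fin (k + 1) → ℕ → ℝ} (hF : Adm (k + 1) F) (m : ℕ) :
    Summable fun n => if m < n then F 0 n * G k (fun i => F i.succ) n else 0 :=
  (G_bound (k + 1) F hF).2 k rfl m

theorem G_nonneg : ∀ (k : ℕ) (F : Fin k → ℕ → ℝ), (∀ i n, 0 ≤ F i n) → ∀ m, 0 ≤ G k F m := by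
  intro k
  induction k with
  | zero => intro F _ m; simp [G]
  | succ k ih =>
    intro F hF m
    rw [G]
    apply tsum_nonneg
    intro n
    split_ifs
    · exact mul_nonneg (hF 0 n) (ih _ (fun i n => hF i.succ n) n)
    · exact le_rfl

/-- increasing tuples above `m`. -/
abbrev Inc (k m : ℕ) := {n : Fin k → ℕ // StrictMono n ∧ ∀ i, m < n i}

/-- first element and the rest. -/
def incEquiv (k m : ℕ) : Inc (k + 1) m ≃ Σ a : {a : ℕ // m < a}, Inc k a.1 where
  toFun n := ⟨⟨n.1 0, n.2.2 0⟩, ⟨fun i => n.1 i.succ, fun i j hij => n.2.1 (Fin.succ_lt_succ_iff.2 hij),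
    fun i => n.2.1 (Fin.succ_pos i)⟩⟩
  invFun p := ⟨Fin.cons p.1.1 p.2.1, by
    intro i j hij
    rcases Fin.eq_zero_or_eq_succ i with rfl | ⟨i', rfl⟩
    · rcases Fin.eq_zero_or_eq_succ j with rfl | ⟨j', rfl⟩
      · exact absurd hij (lt_irrefl _)
      · rw [Fin.cons_zero, Fin.cons_succ]
        exact p.2.2.2 j'
    · rcases Fin.eq_zero_or_eq_succ j with rfl | ⟨j', rfl⟩
      · exact absurd hij (Fin.not_lt_zero _)
      · rw [Fin.cons_succ, Fin.cons_succ]
        exact p.2.2.1 (Fin.succ_lt_succ_iff.1 hij), by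
    intro i
    rcases Fin.eq_zero_or_eq_succ i with rfl | ⟨i', rfl⟩
    · exact p.1.2
    · rw [Fin.cons_succ]
      exact p.1.2.trans (p.2.2.2 i')⟩
  left_inv n := by
    apply Subtype.ext
    funext i
    rcases Fin.eq_zero_or_eq_succ i with rfl | ⟨i', rfl⟩ <;> rfl
  right_inv p := by
    rcases p with ⟨⟨a, ha⟩, ⟨n, hn⟩⟩
    rfl

theorem multi : ∀ (k : ℕ) (F : Fin k → ℕ → ℝ), Adm k F → ∀ m,
    Summable (fun n : Inc k m => ∏ j, |F j (n.1 j)|) ∧ ∑' n : Inc k m, ∏ j, F j (n.1 j) = G k F m := by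
  intro k
  induction k with
  | zero =>
    intro F _ m
    have : Unique (Inc 0 m) := ⟨⟨⟨fun i => i.elim0, fun i => i.elim0, fun i => i.elim0⟩⟩,
      fun n => Subtype.ext (funext fun i => i.elim0)⟩
    refine ⟨(hasSum_fintype _).summable, ?_⟩
    rw [tsum_fintype]
    simp [G]
  | succ k ih =>
    intro F hF m
    have hFabs : Adm (k + 1) (fun i n => |F i n|) := by
      refine ⟨fun i n hn => ?_, fun h n hn => ?_⟩
      · rw [abs_abs]; exact hF.1 i n hn
      · rw [abs_abs]; exact hF.2 h n hn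
    obtain ⟨Φ, hΦ⟩ : ∃ Φ : (Σ a : {a : ℕ // m < a}, Inc k a.1) → ℝ,
      Φ = fun p => F 0 p.1.1 * ∏ j : Fin k, F j.succ (p.2.1 j) := ⟨_, rfl⟩
    obtain ⟨Ψ, hΨ⟩ : ∃ Ψ : (Σ a : {a : ℕ // m < a}, Inc k a.1) → ℝ,
      Ψ = fun p => |F 0 p.1.1| * ∏ j : Fin k, |F j.succ (p.2.1 j)| := ⟨_, rfl⟩
    have hsum : Summable Ψ := by
      rw [hΨ, summable_sigma_of_nonneg (fun p => by positivity)]
      constructor
      · intro a
        have h := (ih (fun i => F i.succ) hF.tail a.1).1
        have h' := h.mul_left (|F 0 a.1|)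
        exact h'
      · have h1 := G_summable hFabs m
        have h2 : (fun a : {a : ℕ // m < a} => ∑' n : Inc k a.1, |F 0 a.1| * ∏ j : Fin k, |F j.succ (n.1 j)|) =
            (fun n => if m < n then |F 0 n| * G k (fun i n => |F i.succ n|) n else 0) ∘ Subtype.val := by
          funext a
          rw [tsum_mul_left, (ih _ hFabs.tail a.1).2]
          simp [a.2]
        have h3 := h1.comp_injective (Subtype.val_injective (p := fun a : ℕ => m < a))
        rw [← h2] at h3
        exact h3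
    have e0 : (fun n : Inc (k + 1) m => ∏ j, |F j (n.1 j)|) = Ψ ∘ (incEquiv k m) := by
      funext n
      rw [Fin.prod_univ_succ, hΨ]
      rfl
    have e1 : (fun n : Inc (k + 1) m => ∏ j, F j (n.1 j)) = fun n => Φ (incEquiv k m n) := by
      funext n
      rw [Fin.prod_univ_succ, hΦ]
      rfl
    refine ⟨?_, ?_⟩
    · rw [e0]
      exact (incEquiv k m).summable_iff.2 hsum
    · rw [e1, (incEquiv k m).tsum_eq Φ]
      have hsum' : Summable Φ := by
        apply Summable.of_norm
        refine hsum.congr fun p => ?_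
        rw [hΨ, hΦ, Real.norm_eq_abs, abs_mul, Finset.abs_prod]
      rw [hsum'.tsum_sigma]
      have e2 : ∀ a : {a : ℕ // m < a}, ∑' n : Inc k a.1, Φ ⟨a, n⟩ =
          (fun n => if m < n then F 0 n * G k (fun i n => F i.succ n) n else 0) a.1 := by
        intro a
        rw [hΦ]
        simp only
        rw [tsum_mul_left, (ih _ hF.tail a.1).2]
        simp [a.2]
      rw [tsum_congr e2]
      rw [G]
      have h3 := tsum_subtype {a : ℕ | m < a} (fun n => if m < n then F 0 n * G k (fun i n => F i.succ n) n else 0)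
      refine h3.trans (tsum_congr fun n => ?_)
      by_cases h : m < n
      · rw [Set.indicator_of_mem (show n ∈ {a : ℕ | m < a} from h)]
      · rw [Set.indicator_of_notMem (show n ∉ {a : ℕ | m < a} from h), if_neg h]

end Iter

section Lists

/-- iterated sum of a string, over indices above `m`. -/
noncomputable def E (s : List Entry) (m : ℕ) : ℝ := G s.length (fun j => term (s.get j)) m

/-- all absolute values are positive, the last is at least `2`. -/
def AdmL (l : List Entry) : Prop := (∀ s ∈ l, 1 ≤ s.1) ∧ ∀ h : l ≠ [], 2 ≤ (l.getLast h).1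

theorem abs_term (s : Entry) (n : ℕ) : |term s n| = 1 / (n : ℝ) ^ s.1 := by
  unfold term
  rw [abs_div, abs_pow]
  have h : |((s.2 : ℤ) : ℝ)| = 1 := by
    rcases Int.units_eq_one_or s.2 with h | h <;> simp [h]
  rw [h, one_pow, abs_of_nonneg (by positivity)]

theorem term_le {s : Entry} {a : ℕ} (h : a ≤ s.1) {n : ℕ} (hn : 0 < n) : |term s n| ≤ 1 / (n : ℝ) ^ a := by
  rw [abs_term]
  have hn' : (1 : ℝ) ≤ n := by exact_mod_cast hn
  exact one_div_le_one_div_of_le (by positivity) (pow_le_pow_right₀ hn' h)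

theorem AdmL.adm {l : List Entry} (h : AdmL l) : Adm l.length (fun j => term (l.get j)) := by
  refine ⟨fun i n hn => ?_, fun hk n hn => ?_⟩
  · have := term_le (h.1 _ (List.get_mem l i)) hn
    rwa [pow_one] at this
  · have h0 : l ≠ [] := List.ne_nil_of_length_pos hk
    have := h.2 h0
    rw [List.getLast_eq_getElem] at this
    exact term_le this hn

theorem AdmL.tail {s : Entry} {l : List Entry} (h : AdmL (s :: l)) : AdmL l := by
  refine ⟨fun t ht => h.1 t (List.mem_cons_of_mem _ ht), fun h0 => ?_⟩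
  have := h.2 (List.cons_ne_nil _ _)
  rwa [List.getLast_cons h0] at this

theorem eulerSum_eq {l : List Entry} (h : AdmL l) : eulerSum l = E l 0 := (multi _ _ h.adm 0).2

theorem E_cons {s : Entry} {l : List Entry} (h : AdmL (s :: l)) (m : ℕ) :
    HasSum (fun n => if m < n then term s n * E l n else 0) (E (s :: l) m) :=
  (G_summable (k := l.length) h.adm m).hasSum

theorem hasSum_list {α : Type*} (L : List α) (f : α → ℕ → ℝ) (a : α → ℝ) (h : ∀ u ∈ L, HasSum (f u) (a u)) :
    HasSum (fun n => (L.map fun u => f u n).sum) ((L.map a).sum) := by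
  induction L with
  | nil => simp
  | cons u L ih =>
    simp only [List.map_cons, List.sum_cons]
    exact (h u (by simp)).add (ih fun v hv => h v (by simp [hv]))

theorem AdmL.cons {s : Entry} {l : List Entry} (hs : 1 ≤ s.1) (hl : AdmL l) (h0 : l ≠ []) : AdmL (s :: l) := by
  refine ⟨fun t ht => ?_, fun _ => ?_⟩
  · rcases List.mem_cons.1 ht with rfl | ht
    · exact hs
    · exact hl.1 t ht
  · rw [List.getLast_cons h0]
    exact hl.2 h0

theorem AdmL.oplus {s t : Entry} {r : List Entry} (h : AdmL (s :: t :: r)) :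
    AdmL (SharpSumParity.oplus s t :: r) := by
  have ht : AdmL (t :: r) := h.tail
  refine ⟨fun u hu => ?_, fun _ => ?_⟩
  · rcases List.mem_cons.1 hu with rfl | hu
    · have := h.1 s (by simp)
      simp only [SharpSumParity.oplus]
      omega
    · exact h.1 u (by simp [hu])
  · by_cases hr : r = []
    · subst hr
      have := ht.2 (by simp)
      simp only [List.getLast_singleton] at this ⊢
      simp only [SharpSumParity.oplus]
      omega
    · rw [List.getLast_cons hr]
      exact ht.tail.2 hr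

theorem strings_adm : ∀ (k : ℕ) (l : List Entry), l.length = k → AdmL l → ∀ u ∈ strings l, AdmL u ∧ u ≠ [] := by
  intro k
  induction k using Nat.strong_induction_on with
  | _ k ih =>
    intro l hk hl u hu
    match l, hk, hl, hu with
    | [], _, _, hu => simp [strings] at hu
    | [s], _, hl, hu =>
      simp only [strings, List.mem_singleton] at hu
      subst hu
      exact ⟨hl, by simp⟩
    | s :: t :: r, hk, hl, hu =>
      rw [strings, List.mem_append, List.mem_map] at hu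
      rcases hu with ⟨w, hw, rfl⟩ | hu
      · have h1 := ih (t :: r).length (by simp at hk ⊢; omega) (t :: r) rfl hl.tail w hw
        exact ⟨h1.1.cons (hl.1 s (by simp)) h1.2, by simp⟩
      · exact ih (oplus s t :: r).length (by simp at hk ⊢; omega) _ rfl hl.oplus u hu

/-- sharp sum over indices above `m`. -/
noncomputable def Sh (l : List Entry) (m : ℕ) : ℝ := ((strings l).map fun t => 2 ^ t.length * E t m).sum

theorem sharp_eq {l : List Entry} (h : AdmL l) : sharp l = Sh l 0 := by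
  unfold sharp Sh
  congr 1
  refine List.map_congr_left fun u hu => ?_
  rw [eulerSum_eq (strings_adm _ l rfl h u hu).1]

/-- the part of the sharp sum with `n_1 = n`. -/
noncomputable def Dn : List Entry → ℕ → ℝ
  | [], _ => 0
  | [s], n => 2 * term s n
  | s :: t :: r, n => term s n * (2 * Sh (t :: r) n + Dn (t :: r) n)

theorem term_oplus (s t : Entry) (n : ℕ) : term (oplus s t) n = term s n * term t n := by
  unfold term oplus
  simp only [Units.val_mul, Int.cast_mul, mul_pow, pow_add]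
  ring

theorem Dn_oplus (s t : Entry) (r : List Entry) (n : ℕ) : Dn (oplus s t :: r) n = term s n * Dn (t :: r) n := by
  cases r with
  | nil => simp only [Dn, term_oplus]; ring
  | cons a r => simp only [Dn, term_oplus]; ring

theorem Sh_hasSum : ∀ (k : ℕ) (l : List Entry), l.length = k → l ≠ [] → AdmL l → ∀ m,
    HasSum (fun n => if m < n then Dn l n else 0) (Sh l m) := by
  intro k
  induction k using Nat.strong_induction_on with
  | _ k ih =>
    intro l hk h0 hl m
    match l, hk, h0, hl with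
    | [], _, h0, _ => exact absurd rfl h0
    | [s], _, _, hl =>
      have h1 := (E_cons hl m).mul_left 2
      have e1 : Sh [s] m = 2 * E [s] m := by simp [Sh, strings]
      rw [e1]
      have e2 : (fun n => if m < n then Dn [s] n else 0) =
          fun n => 2 * (if m < n then term s n * E [] n else 0) := by
        funext n
        split_ifs
        · simp [Dn, E, G]
        · simp
      rw [e2]
      exact h1
    | s :: t :: r, hk, _, hl =>
      have H1 : ∀ u ∈ strings (t :: r), HasSum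
          ((fun (u : List Entry) (n : ℕ) => 2 ^ (u.length + 1) * (if m < n then term s n * E u n else 0)) u)
          ((fun u : List Entry => 2 ^ (u.length + 1) * E (s :: u) m) u) := by
        intro u hu
        have h1 := strings_adm _ (t :: r) rfl hl.tail u hu
        exact (E_cons (h1.1.cons (hl.1 s (by simp)) h1.2) m).mul_left _
      have H2 := hasSum_list (strings (t :: r)) _ _ H1
      have H3 := ih (oplus s t :: r).length (by simp at hk ⊢; omega) _ rfl (by simp) hl.oplus m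
      have H4 := H2.add H3
      have e1 : Sh (s :: t :: r) m =
          ((strings (t :: r)).map (fun u : List Entry => 2 ^ (u.length + 1) * E (s :: u) m)).sum +
            Sh (oplus s t :: r) m := by
        unfold Sh
        rw [strings, List.map_append, List.sum_append, List.map_map]
        rfl
      rw [e1]
      have e2 : (fun n => if m < n then Dn (s :: t :: r) n else 0) = fun n =>
          ((strings (t :: r)).map fun u => (fun (u : List Entry) (n : ℕ) => 2 ^ (u.length + 1) *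
            (if m < n then term s n * E u n else 0)) u n).sum + (if m < n then Dn (oplus s t :: r) n else 0) := by
        funext n
        simp only
        split_ifs with h
        · rw [Dn_oplus, Dn]
          have e3 : ((strings (t :: r)).map fun u => (2 : ℝ) ^ (u.length + 1) * (term s n * E u n)).sum =
              2 * term s n * Sh (t :: r) n := by
            unfold Sh
            rw [← List.sum_map_mul_left]
            congr 1
            refine List.map_congr_left fun u _ => ?_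
            ring
          rw [e3]
          ring
        · simp
      rw [e2]
      exact H4

end Lists

section Kernel

/-- `C(2k, k + n) / C(2k, k)`. -/
noncomputable def v (k n : ℕ) : ℝ := ∏ i ∈ range n, (((k : ℝ) - i) / (k + i + 1))

theorem v_zero (k : ℕ) : v k 0 = 1 := by simp [v]

theorem v_succ (k n : ℕ) : ((k : ℝ) + n + 1) * v k (n + 1) = (k - n) * v k n := by
  unfold v
  rw [prod_range_succ]
  have : (k : ℝ) + n + 1 ≠ 0 := by positivity
  field_simp

theorem v_eq_zero {k n : ℕ} (h : k < n) : v k n = 0 := by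
  unfold v
  apply prod_eq_zero (mem_range.2 h)
  simp

theorem v_nonneg (k n : ℕ) : 0 ≤ v k n := by
  rcases Nat.lt_or_ge k n with h | h
  · rw [v_eq_zero h]
  · unfold v
    apply prod_nonneg
    intro i hi
    have : (i : ℝ) ≤ k := by
      have := mem_range.1 hi
      exact_mod_cast (by omega : i ≤ k)
    apply div_nonneg
    · linarith
    · positivity

theorem v_rec (k n : ℕ) : ((k : ℝ) + 1) ^ 2 * v k n = (((k : ℝ) + 1) ^ 2 - n ^ 2) * v (k + 1) n := by
  induction n with
  | zero => simp [v_zero]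
  | succ n ih =>
    have h1 := v_succ k n
    have h2 := v_succ (k + 1) n
    push_cast at h2 ⊢
    have h3 : (k : ℝ) + n + 1 ≠ 0 := by positivity
    have h4 : (k : ℝ) + 1 + n + 1 ≠ 0 := by positivity
    have h5 : v k (n + 1) = (k - n) * v k n / (k + n + 1) := by field_simp; linarith
    have h6 : v (k + 1) (n + 1) = (k + 1 - n) * v (k + 1) n / (k + 1 + n + 1) := by field_simp; linarith
    rw [h5, h6]
    field_simp
    linear_combination ((k : ℝ) - n) * (k + 1 + n + 1) * ih

theorem tendsto_v (n : ℕ) : Tendsto (fun k => v k n) atTop (𝓝 1) := by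
  induction n with
  | zero => simp only [v_zero]; exact tendsto_const_nhds
  | succ n ih =>
    have h1 : Tendsto (fun k : ℕ => ((k : ℝ) - n) / (k + n + 1)) atTop (𝓝 1) := by
      have h2 : Tendsto (fun k : ℕ => 1 - (2 * (n : ℝ) + 1) / ((k : ℝ) + n + 1)) atTop (𝓝 (1 - 0)) := by
        apply Tendsto.sub tendsto_const_nhds
        apply Tendsto.div_atTop tendsto_const_nhds
        have : Tendsto (fun k : ℕ => (k : ℝ) + ((n : ℝ) + 1)) atTop atTop :=
          tendsto_atTop_add_const_right _ _ tendsto_natCast_atTop_atTop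
        refine this.congr fun k => by ring
      rw [sub_zero] at h2
      refine h2.congr fun k => ?_
      have : (k : ℝ) + n + 1 ≠ 0 := by positivity
      field_simp
      ring
    have h3 := ih.mul h1
    rw [one_mul] at h3
    refine h3.congr fun k => ?_
    unfold v
    rw [prod_range_succ]

theorem sum_v (n : ℕ) (hn : 0 < n) (K : ℕ) : ∑ k ∈ range (K + 1), v k n / (k : ℝ) ^ 2 = v K n / (n : ℝ) ^ 2 := by
  have hn' : (n : ℝ) ≠ 0 := by positivity
  induction K with
  | zero => simp [v_eq_zero hn]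
  | succ K ih =>
    rw [sum_range_succ, ih]
    have h := v_rec K n
    push_cast
    have h1 : (K : ℝ) + 1 ≠ 0 := by positivity
    field_simp
    linear_combination h

theorem hasSum_v (n : ℕ) (hn : 0 < n) : HasSum (fun k => v k n / (k : ℝ) ^ 2) (1 / (n : ℝ) ^ 2) := by
  rw [hasSum_iff_tendsto_nat_of_nonneg (fun k => div_nonneg (v_nonneg k n) (by positivity))]
  rw [← tendsto_add_atTop_iff_nat 1]
  refine Tendsto.congr (fun K => (sum_v n hn K).symm) ?_
  exact (tendsto_v n).div_const _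

/-- telescoping in the second argument. -/
theorem alt_sum (k n : ℕ) (hk : 0 < k) (N : ℕ) :
    ∑ m ∈ range N, (if n < m then (-1 : ℝ) ^ m * v k m else 0) =
      if n < N then ((-1 : ℝ) ^ (n + 1) * (k + (n + 1)) * v k (n + 1) - (-1) ^ N * (k + N) * v k N) / (2 * k)
      else 0 := by
  have hk' : (k : ℝ) ≠ 0 := by positivity
  induction N with
  | zero => simp
  | succ N ih =>
    rw [sum_range_succ, ih]
    have h := v_succ k N
    split_ifs with h1 h2 h3
    · push_cast
      field_simp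
      rw [pow_succ (-1 : ℝ) N]
      linear_combination (-(-1 : ℝ) ^ N) * h
    · omega
    · have : N = n := by omega
      subst this
      push_cast
      simp
    · simp

theorem hasSum_alt (k n : ℕ) (hk : 0 < k) : HasSum (fun m => if n < m then (-1 : ℝ) ^ m * v k m else 0)
    ((-1 : ℝ) ^ n * (n - k) * v k n / (2 * k)) := by
  have h1 : ∀ m ∉ range (n + k + 2), (if n < m then (-1 : ℝ) ^ m * v k m else 0) = 0 := by
    intro m hm
    rw [mem_range, not_lt] at hm
    rw [v_eq_zero (by omega : k < m)]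
    simp
  have h2 : HasSum (fun m => if n < m then (-1 : ℝ) ^ m * v k m else 0)
      (∑ m ∈ range (n + k + 2), (if n < m then (-1 : ℝ) ^ m * v k m else 0)) :=
    hasSum_sum_of_ne_finset_zero h1
  rw [alt_sum k n hk, if_pos (by omega), v_eq_zero (by omega : k < n + k + 2)] at h2
  have h := v_succ k n
  have h3 : ((-1 : ℝ) ^ (n + 1) * (k + (n + 1)) * v k (n + 1) - (-1) ^ (n + k + 2) * (k + ((n + k + 2 : ℕ) : ℝ)) * 0) /
      (2 * k) = (-1 : ℝ) ^ n * (n - k) * v k n / (2 * k) := by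
    congr 1
    rw [pow_succ]
    linear_combination (-(-1 : ℝ) ^ n) * h
  rwa [h3] at h2

/-- weighted alternating sum. -/
theorem alt_sum' (k : ℕ) (hk : 0 < k) :
    ∑ m ∈ range (k + 1), (-1 : ℝ) ^ m * m * v k m = -(k : ℝ) / (2 * (2 * k - 1)) := by
  have hk' : (1 : ℝ) ≤ k := by exact_mod_cast hk
  have h1 : ∀ N : ℕ, ∑ m ∈ range (N + 1), (-1 : ℝ) ^ m * m * v k m =
      (-(k : ℝ) / 2 - (-1) ^ (N + 1) * (N + 1 - 1 / 2) * (k + N + 1) * v k (N + 1)) / (2 * k - 1) := by
    intro N
    have h5 : (2 * (k : ℝ) - 1) ≠ 0 := by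
      intro h; linarith
    induction N with
    | zero =>
      have h := v_succ k 0
      rw [v_zero] at h
      push_cast at h
      simp only [zero_add, range_one, sum_singleton, Nat.cast_zero, mul_zero, zero_mul, pow_one]
      rw [eq_comm, div_eq_zero_iff]
      left
      linear_combination (1 / 2 : ℝ) * h
    | succ N ih =>
      rw [sum_range_succ, ih]
      have h := v_succ k (N + 1)
      push_cast at h ⊢
      rw [eq_div_iff h5, add_mul, div_mul_cancel₀ _ h5, pow_succ (-1 : ℝ) (N + 1)]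
      linear_combination (-(-1 : ℝ) ^ (N + 1)) * (N + 3 / 2) * h
  rw [h1 k, v_eq_zero (by omega : k < k + 1)]
  have h5 : (2 * (k : ℝ) - 1) ≠ 0 := by
    intro h; linarith
  field_simp
  ring

/-- harmonic numbers. -/
noncomputable def h (n : ℕ) : ℝ := ∑ i ∈ range n, 1 / ((i : ℝ) + 1)

theorem h_succ (n : ℕ) : h (n + 1) = h n + 1 / ((n : ℝ) + 1) := by
  unfold h; rw [sum_range_succ]

theorem alt_sum_inv (k : ℕ) : ∑ m ∈ range (k + 1), (-1 : ℝ) ^ m * v k m / m = h k - h (2 * k) := by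
  induction k with
  | zero => simp [h]
  | succ k ih =>
    have h1 : ∑ m ∈ range (k + 1 + 1), (-1 : ℝ) ^ m * v (k + 1) m / m -
        ∑ m ∈ range (k + 1 + 1), (-1 : ℝ) ^ m * v k m / m =
        (∑ m ∈ range (k + 1 + 1), (-1 : ℝ) ^ m * m * v (k + 1) m) / ((k : ℝ) + 1) ^ 2 := by
      rw [← sum_sub_distrib, sum_div]
      refine sum_congr rfl fun m _ => ?_
      have h2 := v_rec k m
      rcases Nat.eq_zero_or_pos m with rfl | hm
      · simp
      · have hm' : (m : ℝ) ≠ 0 := by positivity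
        have hk' : (k : ℝ) + 1 ≠ 0 := by positivity
        field_simp
        linear_combination (-(1 : ℝ)) * h2
    have h2 := alt_sum' (k + 1) (by omega)
    rw [h2] at h1
    have h3 : ∑ m ∈ range (k + 1 + 1), (-1 : ℝ) ^ m * v k m / m = h k - h (2 * k) := by
      rw [sum_range_succ, ih, v_eq_zero (by omega : k < k + 1)]
      simp
    rw [h3] at h1
    have h4 : h (2 * (k + 1)) = h (2 * k) + 1 / (2 * (k : ℝ) + 1) + 1 / (2 * (k : ℝ) + 2) := by
      rw [show 2 * (k + 1) = 2 * k + 1 + 1 by ring, h_succ, h_succ]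
      push_cast
      ring
    rw [h_succ, h4]
    have h5 : ∑ m ∈ range (k + 1 + 1), (-1 : ℝ) ^ m * v (k + 1) m / m =
      h k - h (2 * k) + -((k + 1 : ℕ) : ℝ) / (2 * (2 * ((k + 1 : ℕ) : ℝ) - 1)) / ((k : ℝ) + 1) ^ 2 := by
      linarith
    rw [h5]
    push_cast
    have h6 : (k : ℝ) + 1 ≠ 0 := by positivity
    have h7 : 2 * (k : ℝ) + 1 ≠ 0 := by positivity
    rw [show 2 * ((k : ℝ) + 1) - 1 = 2 * k + 1 by ring]
    have h9 : 2 * (k : ℝ) + 2 ≠ 0 := by positivity
    field_simp
    ring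

end Kernel

section Value

/-- `∑_k v(k, n) / k ^ e`. -/
noncomputable def W (e n : ℕ) : ℝ := ∑' k : ℕ, v k n / (k : ℝ) ^ e

theorem v_div_le {e n k : ℕ} (he : 2 ≤ e) (hn : 0 < n) : v k n / (k : ℝ) ^ e ≤ v k n / (k : ℝ) ^ 2 := by
  rcases Nat.eq_zero_or_pos k with rfl | hk
  · rw [v_eq_zero hn]; simp
  · have hk' : (1 : ℝ) ≤ k := by exact_mod_cast hk
    exact div_le_div_of_nonneg_left (v_nonneg k n) (by positivity) (pow_le_pow_right₀ hk' he)

theorem prod_summable : Summable (fun p : ℕ × ℕ => if 0 < p.1 then v p.2 p.1 / (p.2 : ℝ) ^ 2 else 0) := by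
  rw [summable_prod_of_nonneg]
  · constructor
    · intro m
      rcases Nat.eq_zero_or_pos m with rfl | hm
      · simp
      · simpa [hm] using (hasSum_v m hm).summable
    · have h1 : (fun m : ℕ => ∑' k : ℕ, (if 0 < m then v k m / (k : ℝ) ^ 2 else 0)) = fun m : ℕ => 1 / (m : ℝ) ^ 2 := by
        funext m
        rcases Nat.eq_zero_or_pos m with rfl | hm
        · simp
        · simp only [hm, if_true]
          exact (hasSum_v m hm).tsum_eq
      simp only
      rw [h1]
      exact Real.summable_one_div_nat_pow.2 (by norm_num)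
  · intro p
    simp only [Pi.zero_apply]
    split_ifs
    · exact div_nonneg (v_nonneg _ _) (by positivity)
    · exact le_rfl

theorem W_summable {e n : ℕ} (he : 2 ≤ e) (hn : 0 < n) : Summable fun k : ℕ => v k n / (k : ℝ) ^ e :=
  Summable.of_nonneg_of_le (fun k => div_nonneg (v_nonneg _ _) (by positivity)) (fun _ => v_div_le he hn)
    (hasSum_v n hn).summable

/-- the general exchange of summations. -/
theorem exchange (e : ℕ) (he : 2 ≤ e) (c : ℕ → ℝ) (hc0 : c 0 = 0) (hc : ∀ m, |c m| ≤ 1) :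
    Summable (fun m => c m * W e m) ∧
    ∑' m, c m * W e m = ∑' k : ℕ, (∑' m, c m * v k m) / (k : ℝ) ^ e := by
  obtain ⟨f, hf⟩ : ∃ f : ℕ → ℕ → ℝ, f = fun m k => c m * (v k m / (k : ℝ) ^ e) := ⟨_, rfl⟩
  have h1 : Summable (Function.uncurry f) := by
    refine prod_summable.of_norm_bounded fun p => ?_
    rw [hf]
    simp only [Function.uncurry]
    rcases Nat.eq_zero_or_pos p.1 with h | h
    · rw [h, hc0]; simp
    · rw [if_pos h, Real.norm_eq_abs, abs_mul, abs_of_nonneg (div_nonneg (v_nonneg _ _) (by positivity) :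
        0 ≤ v p.2 p.1 / (p.2 : ℝ) ^ e)]
      calc |c p.1| * (v p.2 p.1 / (p.2 : ℝ) ^ e) ≤ 1 * (v p.2 p.1 / (p.2 : ℝ) ^ e) :=
            mul_le_mul_of_nonneg_right (hc _) (div_nonneg (v_nonneg _ _) (by positivity))
        _ ≤ v p.2 p.1 / (p.2 : ℝ) ^ 2 := by rw [one_mul]; exact v_div_le he h
  have e0 : ∀ m, ∑' k, f m k = c m * W e m := by
    intro m
    rw [hf]
    simp only
    rw [tsum_mul_left, W]
  constructor
  · have h2 := h1.prod
    refine h2.congr fun m => ?_
    exact e0 m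
  · have h2 : ∑' k, ∑' m, f m k = ∑' m, ∑' k, f m k := h1.tsum_comm
    rw [tsum_congr e0] at h2
    rw [← h2]
    refine tsum_congr fun k => ?_
    rw [← tsum_div_const]
    refine tsum_congr fun m => ?_
    rw [hf]
    ring

theorem tele (e n : ℕ) (he : 2 ≤ e) (hn : 0 < n) :
    Summable (fun m => if n < m then (-1 : ℝ) ^ m * W e m else 0) ∧
    ∑' m, (if n < m then (-1 : ℝ) ^ m * W e m else 0) =
      ((-1 : ℝ) ^ n * n * W (e + 1) n - (-1) ^ n * W e n) / 2 := by
  have h1 := exchange e he (fun m => if n < m then (-1 : ℝ) ^ m else 0) (by simp) (fun m => by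
    split_ifs
    · rw [abs_pow, abs_neg, abs_one, one_pow]
    · simp)
  have e1 : ∀ m, (if n < m then (-1 : ℝ) ^ m else 0) * W e m = if n < m then (-1 : ℝ) ^ m * W e m else 0 := by
    intro m; split_ifs <;> simp
  simp only [e1] at h1
  refine ⟨h1.1, ?_⟩
  rw [h1.2]
  have e2 : ∀ k : ℕ, (∑' m, (if n < m then (-1 : ℝ) ^ m else 0) * v k m) / (k : ℝ) ^ e =
      ((-1 : ℝ) ^ n * n / 2) * (v k n / (k : ℝ) ^ (e + 1)) - ((-1 : ℝ) ^ n / 2) * (v k n / (k : ℝ) ^ e) := by
    intro k
    have e3 : ∀ m, (if n < m then (-1 : ℝ) ^ m else 0) * v k m = if n < m then (-1 : ℝ) ^ m * v k m else 0 := by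
      intro m; split_ifs <;> simp
    simp only [e3]
    rcases Nat.eq_zero_or_pos k with rfl | hk
    · rw [v_eq_zero hn]
      have : ∀ m, (if n < m then (-1 : ℝ) ^ m * v 0 m else 0) = 0 := by
        intro m; split_ifs with h
        · rw [v_eq_zero (by omega : 0 < m)]; simp
        · rfl
      simp only [this]
      simp
    · rw [(hasSum_alt k n hk).tsum_eq]
      have hk' : (k : ℝ) ≠ 0 := by positivity
      rw [pow_succ]
      field_simp
  rw [tsum_congr e2, Summable.tsum_sub ((W_summable (by omega) hn).mul_left _) ((W_summable he hn).mul_left _),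
    tsum_mul_left, tsum_mul_left]
  change _ * W (e + 1) n - _ * W e n = _
  ring

/-- the string `1_j, 2̄`. -/
def c (j : ℕ) : List Entry := List.replicate j (1, 1) ++ [(2, -1)]

theorem c_succ (j : ℕ) : c (j + 1) = (1, 1) :: c j := by
  simp [c, List.replicate_succ]

theorem c_ne (j : ℕ) : c j ≠ [] := by simp [c]

theorem c_adm (j : ℕ) : AdmL (c j) := by
  induction j with
  | zero =>
    refine ⟨fun s hs => ?_, fun h => ?_⟩
    · simp [c] at hs; subst hs; norm_num
    · simp [c]
  | succ j ih => rw [c_succ]; exact ih.cons le_rfl (c_ne j)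

theorem Dn_cons {s : Entry} {l : List Entry} (h : l ≠ []) (n : ℕ) :
    Dn (s :: l) n = term s n * (2 * Sh l n + Dn l n) := by
  cases l with
  | nil => exact absurd rfl h
  | cons t r => rw [Dn]

theorem Dn_c (j : ℕ) : ∀ n, 0 < n → Dn (c j) n = 2 * (-1) ^ n * W (j + 2) n ∧
    2 * Sh (c j) n + Dn (c j) n = 2 * (-1) ^ n * n * W (j + 3) n := by
  induction j with
  | zero =>
    have h0 : ∀ n, 0 < n → Dn (c 0) n = 2 * (-1) ^ n * W (0 + 2) n := by
      intro n hn
      have : c 0 = [(2, -1)] := by simp [c]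
      rw [this, Dn, W, zero_add, (hasSum_v n hn).tsum_eq, term]
      simp
      ring
    intro n hn
    refine ⟨h0 n hn, ?_⟩
    have h1 := (Sh_hasSum _ (c 0) rfl (c_ne 0) (c_adm 0) n).tsum_eq
    have h2 := tele (0 + 2) n (by omega) hn
    have h3 : ∀ m, (if n < m then Dn (c 0) m else 0) = 2 * (if n < m then (-1 : ℝ) ^ m * W (0 + 2) m else 0) := by
      intro m
      split_ifs with h
      · rw [h0 m (by omega)]; ring
      · simp
    rw [tsum_congr h3, tsum_mul_left, h2.2] at h1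
    rw [← h1, h0 n hn]
    ring
  | succ j ih =>
    have h0 : ∀ n, 0 < n → Dn (c (j + 1)) n = 2 * (-1) ^ n * W (j + 1 + 2) n := by
      intro n hn
      have hn' : (n : ℝ) ≠ 0 := by positivity
      rw [c_succ, Dn_cons (c_ne j), (ih n hn).2, term]
      simp
      field_simp
    intro n hn
    refine ⟨h0 n hn, ?_⟩
    have h1 := (Sh_hasSum _ (c (j + 1)) rfl (c_ne _) (c_adm _) n).tsum_eq
    have h2 := tele (j + 1 + 2) n (by omega) hn
    have h3 : ∀ m, (if n < m then Dn (c (j + 1)) m else 0) =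
        2 * (if n < m then (-1 : ℝ) ^ m * W (j + 1 + 2) m else 0) := by
      intro m
      split_ifs with h
      · rw [h0 m (by omega)]; ring
      · simp
    rw [tsum_congr h3, tsum_mul_left, h2.2] at h1
    rw [← h1, h0 n hn]
    ring

/-- **Closed form.** -/
theorem sharp_value (j : ℕ) :
    sharp ((2, 1) :: c j) = 2 * ∑' k : ℕ, (h k - h (2 * k)) / (k : ℝ) ^ (j + 3) := by
  have hadm : AdmL ((2, 1) :: c j) := (c_adm j).cons (by norm_num) (c_ne j)
  rw [sharp_eq hadm, ← (Sh_hasSum _ _ rfl (by simp) hadm 0).tsum_eq]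
  have h1 := exchange (j + 3) (by omega) (fun m => (-1 : ℝ) ^ m / m) (by simp) (fun m => by
    rw [abs_div, abs_pow, abs_neg, abs_one, one_pow]
    rcases Nat.eq_zero_or_pos m with rfl | hm
    · simp
    · have hm' : (1 : ℝ) ≤ m := by exact_mod_cast hm
      rw [abs_of_nonneg (by positivity)]
      exact (div_le_one (by positivity)).2 hm')
  have e1 : ∀ n, (if 0 < n then Dn ((2, 1) :: c j) n else 0) = 2 * ((-1 : ℝ) ^ n / n * W (j + 3) n) := by
    intro n
    split_ifs with hn
    · have hn' : (n : ℝ) ≠ 0 := by positivity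
      rw [Dn_cons (c_ne j), (Dn_c j n hn).2, term]
      simp
      field_simp
    · have : n = 0 := by omega
      subst this
      simp
  rw [tsum_congr e1, tsum_mul_left, h1.2]
  congr 1
  refine tsum_congr fun k => ?_
  congr 1
  have h2 : ∀ m ∉ range (k + 1), (-1 : ℝ) ^ m / m * v k m = 0 := by
    intro m hm
    rw [mem_range, not_lt] at hm
    rw [v_eq_zero (by omega : k < m), mul_zero]
  rw [tsum_eq_sum h2, ← alt_sum_inv]
  refine sum_congr rfl fun m _ => ?_
  ring

end Value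

section Double

/-- `∑_{b > a} 1 / (b ^ 2 - a ^ 2) = h(2a) / (2a)`. -/
theorem hasSum_b (a : ℕ) (ha : 0 < a) :
    HasSum (fun b : ℕ => if a < b then 1 / ((b : ℝ) ^ 2 - (a : ℝ) ^ 2) else 0) (h (2 * a) / (2 * a)) := by
  have ha' : (0 : ℝ) < a := by exact_mod_cast ha
  have hh : ∀ N : ℕ, Tendsto (fun M : ℕ => h (M + N) - h M) atTop (𝓝 0) := by
    intro N
    induction N with
    | zero => simp
    | succ N ih =>
      have h1 : Tendsto (fun M : ℕ => 1 / (((M + N : ℕ) : ℝ) + 1)) atTop (𝓝 0) := by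
        have := tendsto_one_div_add_atTop_nhds_zero_nat (𝕜 := ℝ)
        exact this.comp (tendsto_add_atTop_nat N)
      have h2 := ih.add h1
      rw [add_zero] at h2
      refine h2.congr fun M => ?_
      rw [← add_assoc, h_succ]
      ring
  have hsum : ∀ M : ℕ, ∑ b ∈ range (M + (a + 1)), (if a < b then 1 / ((b : ℝ) ^ 2 - (a : ℝ) ^ 2) else 0) =
      (h (2 * a) - (h (M + 2 * a) - h M)) / (2 * a) := by
    intro M
    induction M with
    | zero =>
      rw [sum_eq_zero]
      · simp [h]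
      · intro b hb
        have := mem_range.1 hb
        rw [if_neg (by omega)]
    | succ M ih =>
      rw [show M + 1 + (a + 1) = M + (a + 1) + 1 by ring, sum_range_succ, ih, if_pos (by omega),
        show M + 1 + 2 * a = M + 2 * a + 1 by ring, h_succ, h_succ]
      push_cast
      have e1 : ((M : ℝ) + (a + 1)) ^ 2 - (a : ℝ) ^ 2 = (M + 1) * (M + 2 * a + 1) := by ring
      rw [e1]
      have h1 : (M : ℝ) + 1 ≠ 0 := by positivity
      have h2 : (M : ℝ) + 2 * a + 1 ≠ 0 := by positivity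
      field_simp
      ring
  rw [hasSum_iff_tendsto_nat_of_nonneg]
  · rw [← tendsto_add_atTop_iff_nat (a + 1)]
    refine Tendsto.congr (fun M => (hsum M).symm) ?_
    have h1 := (tendsto_const_nhds (x := h (2 * a))).sub (hh (2 * a))
    rw [sub_zero] at h1
    exact h1.div_const _
  · intro b
    split_ifs with hb
    · have : (a : ℝ) < b := by exact_mod_cast hb
      apply one_div_nonneg.2
      nlinarith
    · exact le_rfl

/-- sums over `a < b`. -/
theorem sum_a (b : ℕ) (hb : 0 < b) :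
    ∑ a ∈ range b, (if 0 < a then (a : ℝ) / ((b : ℝ) ^ 2 - (a : ℝ) ^ 2) else 0) =
      (2 * h b - h (2 * b) - 1 / (2 * b)) / 2 ∧
    ∑ a ∈ range b, (if 0 < a then 1 / ((b : ℝ) ^ 2 - (a : ℝ) ^ 2) else 0) =
      (h (2 * b) - 3 / (2 * b)) / (2 * b) := by
  have key : ∀ N : ℕ, N < b →
      ∑ a ∈ range (N + 1), (if 0 < a then (a : ℝ) / ((b : ℝ) ^ 2 - (a : ℝ) ^ 2) else 0) =
        ((h (b - 1) - h (b - 1 - N)) - (h (b + N) - h b)) / 2 ∧
      ∑ a ∈ range (N + 1), (if 0 < a then 1 / ((b : ℝ) ^ 2 - (a : ℝ) ^ 2) else 0) =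
        ((h (b - 1) - h (b - 1 - N)) + (h (b + N) - h b)) / (2 * b) := by
    intro N
    induction N with
    | zero => intro _; simp
    | succ N ih =>
      intro hN
      obtain ⟨i1, i2⟩ := ih (by omega)
      obtain ⟨t, ht⟩ : ∃ t, b = N + 2 + t := ⟨b - (N + 2), by omega⟩
      have hb' : (b : ℝ) = N + 2 + t := by rw [ht]; push_cast; ring
      have e1 : b - 1 - N = t + 1 := by omega
      have e2 : b - 1 - (N + 1) = t := by omega
      have e3 : b + (N + 1) = (b + N) + 1 := by omega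
      have g1 : h (t + 1) = h t + 1 / ((t : ℝ) + 1) := h_succ t
      have g2 : h (b + N + 1) = h (b + N) + 1 / (((b : ℝ) + N) + 1) := by rw [h_succ]; push_cast; ring
      rw [sum_range_succ _ (N + 1), sum_range_succ _ (N + 1), i1, i2, if_pos (by omega), if_pos (by omega), e1, e2,
        e3, g1, g2]
      push_cast
      have e4 : (b : ℝ) ^ 2 - ((N : ℝ) + 1) ^ 2 = (t + 1) * (b + N + 1) := by rw [hb']; ring
      rw [e4]
      have h1 : (t : ℝ) + 1 ≠ 0 := by positivity
      have h2 : (b : ℝ) + N + 1 ≠ 0 := by positivity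
      have h3 : (b : ℝ) ≠ 0 := by positivity
      constructor
      · field_simp
        rw [hb']
        ring
      · field_simp
        rw [hb']
        ring
  obtain ⟨B, rfl⟩ : ∃ B, b = B + 1 := ⟨b - 1, by omega⟩
  obtain ⟨i1, i2⟩ := key B (by omega)
  rw [i1, i2]
  have e1 : B + 1 - 1 = B := by omega
  have e2 : B + 1 - 1 - B = 0 := by omega
  have e3 : h 0 = 0 := by simp [h]
  have e4 : h (2 * (B + 1)) = h (B + 1 + B) + 1 / (2 * ((B : ℝ) + 1)) := by
    rw [show 2 * (B + 1) = B + 1 + B + 1 by ring, h_succ]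
    push_cast
    ring
  rw [e1, show B - B = 0 by omega, e3, e4, h_succ B]
  push_cast
  have h3 : (B : ℝ) + 1 ≠ 0 := by positivity
  constructor
  · field_simp
    ring
  · field_simp
    ring

theorem h_nonneg (n : ℕ) : 0 ≤ h n := sum_nonneg fun i _ => by positivity

theorem h_le (n : ℕ) : h n ≤ n := by
  induction n with
  | zero => simp [h]
  | succ n ih =>
    rw [h_succ]
    push_cast
    have : 1 / ((n : ℝ) + 1) ≤ 1 := by
      rw [div_le_one (by positivity)]; linarith [(Nat.cast_nonneg n : (0 : ℝ) ≤ n)]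
    linarith

/-- `∑_{0 < a < b} a ^ (-D) / (b ^ 2 - a ^ 2)`. -/
theorem sum_f (D : ℕ) (hD : 2 ≤ D) :
    HasSum (fun p : ℕ × ℕ => if 0 < p.1 ∧ p.1 < p.2 then
      1 / (p.1 : ℝ) ^ D * (1 / ((p.2 : ℝ) ^ 2 - (p.1 : ℝ) ^ 2)) else 0)
      (∑' k : ℕ, h (2 * k) / (2 * (k : ℝ) ^ (D + 1))) := by
  obtain ⟨f, hf⟩ : ∃ f : ℕ × ℕ → ℝ, f = fun p : ℕ × ℕ => if 0 < p.1 ∧ p.1 < p.2 then
      1 / (p.1 : ℝ) ^ D * (1 / ((p.2 : ℝ) ^ 2 - (p.1 : ℝ) ^ 2)) else 0 := ⟨_, rfl⟩
  have hf0 : 0 ≤ f := by
    intro p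
    rw [hf]
    simp only [Pi.zero_apply]
    split_ifs with hp
    · have h1 : (p.1 : ℝ) < p.2 := by exact_mod_cast hp.2
      have h2 : (0 : ℝ) < p.1 := by exact_mod_cast hp.1
      have h3 : 0 < (p.2 : ℝ) ^ 2 - (p.1 : ℝ) ^ 2 := by nlinarith
      positivity
    · exact le_rfl
  have hs : ∀ a : ℕ, HasSum (fun b => f (a, b)) (h (2 * a) / (2 * (a : ℝ) ^ (D + 1))) := by
    intro a
    rcases Nat.eq_zero_or_pos a with rfl | ha
    · have e1 : (fun b => f (0, b)) = fun _ => 0 := by
        funext b; rw [hf]; simp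
      rw [e1]
      simp [hasSum_zero]
    · have h1 := (hasSum_b a ha).mul_left (1 / (a : ℝ) ^ D)
      have e1 : (fun b => f (a, b)) = fun b : ℕ => 1 / (a : ℝ) ^ D *
          (if a < b then 1 / ((b : ℝ) ^ 2 - (a : ℝ) ^ 2) else 0) := by
        funext b; rw [hf]; simp only [ha, true_and]; split_ifs <;> simp
      have ha' : (a : ℝ) ≠ 0 := by positivity
      have e2 : h (2 * a) / (2 * (a : ℝ) ^ (D + 1)) = 1 / (a : ℝ) ^ D * (h (2 * a) / (2 * a)) := by
        rw [pow_succ]
        field_simp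
      rw [e1, e2]
      exact h1
  have hsum : Summable f := by
    rw [summable_prod_of_nonneg hf0]
    refine ⟨fun a => (hs a).summable, ?_⟩
    have e1 : (fun a : ℕ => ∑' b, f (a, b)) = fun a : ℕ => h (2 * a) / (2 * (a : ℝ) ^ (D + 1)) :=
      funext fun a => (hs a).tsum_eq
    rw [e1]
    refine Summable.of_nonneg_of_le (fun a => div_nonneg (h_nonneg _) (by positivity)) (fun a => ?_)
      (Real.summable_one_div_nat_pow.2 (by omega : 1 < D))
    rcases Nat.eq_zero_or_pos a with rfl | ha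
    · simp [h]
    · have ha' : (0 : ℝ) < a := by positivity
      rw [div_le_div_iff₀ (by positivity) (by positivity)]
      have := h_le (2 * a)
      push_cast at this
      calc h (2 * a) * (a : ℝ) ^ D ≤ (2 * a) * (a : ℝ) ^ D := mul_le_mul_of_nonneg_right this (by positivity)
        _ = 1 * (2 * (a : ℝ) ^ (D + 1)) := by ring
  have h2 := hsum.hasSum
  have h3 : ∑' p, f p = ∑' k : ℕ, h (2 * k) / (2 * (k : ℝ) ^ (D + 1)) := by
    rw [hsum.tsum_prod]
    exact tsum_congr fun a => (hs a).tsum_eq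
  rw [h3] at h2
  rw [hf] at h2
  exact h2

/-- `∑_{0 < a < b} a ^ i b ^ (-D) / (b ^ 2 - a ^ 2)` for a coefficient function `w`. -/
theorem sum_g (D : ℕ) (w : ℕ → ℝ) (hw : ∀ a, 0 ≤ w a) (S : ℕ → ℝ)
    (hS : ∀ b : ℕ, 0 < b → ∑ a ∈ range b, (if 0 < a then w a / ((b : ℝ) ^ 2 - (a : ℝ) ^ 2) else 0) = S b)
    (hsum0 : Summable fun b : ℕ => S b / (b : ℝ) ^ D) (hD : D ≠ 0) :
    HasSum (fun p : ℕ × ℕ => if 0 < p.1 ∧ p.1 < p.2 then
      1 / (p.2 : ℝ) ^ D * (w p.1 / ((p.2 : ℝ) ^ 2 - (p.1 : ℝ) ^ 2)) else 0)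
      (∑' k : ℕ, S k / (k : ℝ) ^ D) := by
  obtain ⟨f, hf⟩ : ∃ f : ℕ × ℕ → ℝ, f = fun p : ℕ × ℕ => if 0 < p.2 ∧ p.2 < p.1 then
      1 / (p.1 : ℝ) ^ D * (w p.2 / ((p.1 : ℝ) ^ 2 - (p.2 : ℝ) ^ 2)) else 0 := ⟨_, rfl⟩
  have hf0 : 0 ≤ f := by
    intro p
    rw [hf]
    simp only [Pi.zero_apply]
    split_ifs with hp
    · have h1 : (p.2 : ℝ) < p.1 := by exact_mod_cast hp.2
      have h2 : (0 : ℝ) < p.2 := by exact_mod_cast hp.1
      have h3 : 0 < (p.1 : ℝ) ^ 2 - (p.2 : ℝ) ^ 2 := by nlinarith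
      have := hw p.2
      positivity
    · exact le_rfl
  have hs : ∀ b : ℕ, HasSum (fun a => f (b, a)) (S b / (b : ℝ) ^ D) := by
    intro b
    rcases Nat.eq_zero_or_pos b with rfl | hb
    · have e1 : (fun a => f (0, a)) = fun _ => 0 := by
        funext a; rw [hf]; simp
      rw [e1]
      simp [hasSum_zero, hD]
    · have h1 : ∀ a ∉ range b, f (b, a) = 0 := by
        intro a ha
        rw [mem_range, not_lt] at ha
        rw [hf]
        simp only
        rw [if_neg (by omega)]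
      have h2 : HasSum (fun a => f (b, a)) (∑ a ∈ range b, f (b, a)) := hasSum_sum_of_ne_finset_zero h1
      convert h2 using 1
      rw [← hS b hb, sum_div]
      refine sum_congr rfl fun a ha => ?_
      have := mem_range.1 ha
      rw [hf]
      simp only [this, and_true]
      split_ifs
      · ring
      · simp
  have hsum : Summable f := by
    rw [summable_prod_of_nonneg hf0]
    refine ⟨fun a => (hs a).summable, ?_⟩
    have e1 : (fun a : ℕ => ∑' b, f (a, b)) = fun b : ℕ => S b / (b : ℝ) ^ D :=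
      funext fun a => (hs a).tsum_eq
    rw [e1]
    exact hsum0
  have h2 := hsum.hasSum
  have h3 : ∑' p, f p = ∑' k : ℕ, S k / (k : ℝ) ^ D := by
    rw [hsum.tsum_prod]
    exact tsum_congr fun a => (hs a).tsum_eq
  rw [h3] at h2
  have h4 := (Equiv.prodComm ℕ ℕ).hasSum_iff.2 h2
  convert h4 using 1
  funext p
  rw [hf]
  rfl

end Double

section RHS

theorem eulerSum_one (m : ℕ) (hm : 2 ≤ m) : eulerSum [(m, 1)] = ∑' k : ℕ, 1 / (k : ℝ) ^ m := by
  have hadm : AdmL [((m, 1) : Entry)] := by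
    refine ⟨fun s hs => ?_, fun h => ?_⟩
    · simp only [List.mem_singleton] at hs; subst hs; simp; omega
    · simpa using hm
  rw [eulerSum_eq hadm, ← (E_cons hadm 0).tsum_eq]
  refine tsum_congr fun n => ?_
  rcases Nat.eq_zero_or_pos n with rfl | hn
  · have hm0 : m ≠ 0 := by omega
    simp [hm0]
  · rw [if_pos hn]
    simp [term, E, G]

theorem eulerSum_two (m n : ℕ) (hm : 1 ≤ m) (hn : 2 ≤ n) :
    HasSum (fun p : ℕ × ℕ => if 0 < p.1 ∧ p.1 < p.2 then 1 / (p.1 : ℝ) ^ m * (1 / (p.2 : ℝ) ^ n) else 0)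
      (eulerSum [(m, 1), (n, 1)]) := by
  have hadm1 : AdmL [((n, 1) : Entry)] := by
    refine ⟨fun s hs => ?_, fun h => ?_⟩
    · simp only [List.mem_singleton] at hs; subst hs; simp; omega
    · simpa using hn
  have hadm : AdmL [((m, 1) : Entry), (n, 1)] := hadm1.cons hm (by simp)
  obtain ⟨f, hf⟩ : ∃ f : ℕ × ℕ → ℝ, f = fun p : ℕ × ℕ =>
    if 0 < p.1 ∧ p.1 < p.2 then 1 / (p.1 : ℝ) ^ m * (1 / (p.2 : ℝ) ^ n) else 0 := ⟨_, rfl⟩
  have hf0 : 0 ≤ f := by
    intro p
    rw [hf]
    simp only [Pi.zero_apply]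
    split_ifs
    · positivity
    · exact le_rfl
  have hE : ∀ a, HasSum (fun b : ℕ => if a < b then 1 / (b : ℝ) ^ n else 0) (E [(n, 1)] a) := by
    intro a
    have h1 := E_cons hadm1 a
    have e1 : (fun b : ℕ => if a < b then 1 / (b : ℝ) ^ n else 0) =
        fun b => if a < b then term (n, 1) b * E [] b else 0 := by
      funext b
      simp [term, E, G]
    rw [e1]
    exact h1
  have hs : ∀ a, HasSum (fun b => f (a, b)) (if 0 < a then term (m, 1) a * E [(n, 1)] a else 0) := by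
    intro a
    rw [hf]
    by_cases ha : 0 < a
    · rw [if_pos ha]
      have h1 := (hE a).mul_left (1 / (a : ℝ) ^ m)
      have e1 : (fun b : ℕ => if 0 < a ∧ a < b then 1 / (a : ℝ) ^ m * (1 / (b : ℝ) ^ n) else 0) =
          fun b => 1 / (a : ℝ) ^ m * (if a < b then 1 / (b : ℝ) ^ n else 0) := by
        funext b
        simp only [ha, true_and]
        split_ifs <;> simp
      have e2 : term (m, 1) a = 1 / (a : ℝ) ^ m := by simp [term]
      rw [e2]
      simp only
      rw [e1]
      exact h1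
    · rw [if_neg ha]
      simp only [ha, false_and, if_false]
      exact hasSum_zero
  have hsum : Summable f := by
    rw [summable_prod_of_nonneg hf0]
    refine ⟨fun a => (hs a).summable, ?_⟩
    have e1 : (fun a : ℕ => ∑' b, f (a, b)) = fun a : ℕ => if 0 < a then term (m, 1) a * E [(n, 1)] a else 0 :=
      funext fun a => (hs a).tsum_eq
    rw [e1]
    exact (E_cons hadm 0).summable
  have h2 := hsum.hasSum
  have h3 : ∑' p, f p = eulerSum [(m, 1), (n, 1)] := by
    rw [hsum.tsum_prod, eulerSum_eq hadm, ← (E_cons hadm 0).tsum_eq]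
    exact tsum_congr fun a => (hs a).tsum_eq
  rw [h3, hf] at h2
  exact h2

/-- the sum over even `n` with `2 ≤ n ≤ d` of `ζ(d + 1 - n, n)`. -/
noncomputable def R (d : ℕ) : ℝ :=
  ∑ n ∈ (Finset.Icc 2 d).filter Even, eulerSum [(d + 1 - n, 1), (n, 1)]

theorem hasSum_R (d : ℕ) : HasSum (fun p : ℕ × ℕ => if 0 < p.1 ∧ p.1 < p.2 then
    ∑ n ∈ (Finset.Icc 2 d).filter Even, 1 / (p.1 : ℝ) ^ (d + 1 - n) * (1 / (p.2 : ℝ) ^ n) else 0) (R d) := by
  have h1 := hasSum_sum (f := fun (n : ℕ) (p : ℕ × ℕ) => if 0 < p.1 ∧ p.1 < p.2 then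
    1 / (p.1 : ℝ) ^ (d + 1 - n) * (1 / (p.2 : ℝ) ^ n) else 0)
    (a := fun n => eulerSum [(d + 1 - n, 1), (n, 1)]) (s := (Finset.Icc 2 d).filter Even) (fun n hn => by
      have := mem_Icc.1 (mem_filter.1 hn).1
      exact eulerSum_two _ _ (by omega) (by omega))
  unfold R
  convert h1 using 1
  funext p
  split_ifs <;> simp

/-- reindexing the even integers. -/
theorem sum_even (e d : ℕ) (hd : d = 2 * e ∨ d = 2 * e + 1) (F : ℕ → ℝ) :
    ∑ n ∈ (Finset.Icc 2 d).filter Even, F n = ∑ l ∈ range e, F (2 * l + 2) := by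
  symm
  refine sum_bij' (fun l _ => 2 * l + 2) (fun n _ => (n - 2) / 2) ?_ ?_ ?_ ?_ ?_
  · intro l hl
    have := mem_range.1 hl
    rw [mem_filter, mem_Icc]
    exact ⟨by omega, ⟨l + 1, by ring⟩⟩
  · intro n hn
    rw [mem_filter, mem_Icc] at hn
    obtain ⟨h1, k, hk⟩ := hn
    rw [mem_range]
    omega
  · intro l _
    simp
  · intro n hn
    rw [mem_filter, mem_Icc] at hn
    obtain ⟨h1, k, hk⟩ := hn
    show 2 * ((n - 2) / 2) + 2 = n
    omega
  · intro l _
    rfl

theorem geom (e : ℕ) (x y : ℝ) : (x ^ 2 - y ^ 2) * ∑ l ∈ range e, x ^ (2 * (e - 1 - l)) * y ^ (2 * l) =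
    x ^ (2 * e) - y ^ (2 * e) := by
  have h1 := (Commute.all (y ^ 2) (x ^ 2)).geom_sum₂_mul e
  have h2 : ∑ i ∈ range e, (y ^ 2) ^ i * (x ^ 2) ^ (e - 1 - i) = ∑ l ∈ range e, x ^ (2 * (e - 1 - l)) * y ^ (2 * l) := by
    refine sum_congr rfl fun l _ => ?_
    rw [← pow_mul, ← pow_mul]
    ring
  rw [h2] at h1
  rw [pow_mul, pow_mul]
  linear_combination (-1 : ℝ) * h1

theorem R_even (e : ℕ) (he : 2 ≤ e) : R (2 * e) = ∑' k : ℕ, (h (2 * k) - h k) / (k : ℝ) ^ (2 * e) +
    (1 / 4) * ∑' k : ℕ, 1 / (k : ℝ) ^ (2 * e + 1) := by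
  have hS : Summable fun b : ℕ => ((2 * h b - h (2 * b) - 1 / (2 * b)) / 2) / (b : ℝ) ^ (2 * e) := by
    refine Summable.of_norm_bounded (Real.summable_one_div_nat_pow.2 (by omega : 1 < 2 * e - 1) |>.mul_left 3) fun b => ?_
    rcases Nat.eq_zero_or_pos b with rfl | hb
    · have h1 : 2 * e ≠ 0 := by omega
      have h2 : (((0 : ℕ) : ℝ)) ^ (2 * e) = 0 := by rw [Nat.cast_zero]; exact zero_pow h1
      rw [h2, div_zero, norm_zero]
      positivity
    · have hb' : (1 : ℝ) ≤ b := by exact_mod_cast hb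
      have h1 := h_le b
      have h2 := h_le (2 * b)
      have h3 := h_nonneg b
      have h4 := h_nonneg (2 * b)
      push_cast at h2
      have h5 : 1 / (2 * (b : ℝ)) ≤ b := by
        rw [div_le_iff₀ (by positivity)]; nlinarith
      have h6 : 0 ≤ 1 / (2 * (b : ℝ)) := by positivity
      rw [Real.norm_eq_abs, abs_div, abs_of_nonneg (by positivity : (0 : ℝ) ≤ (b : ℝ) ^ (2 * e))]
      have h7 : |(2 * h b - h (2 * b) - 1 / (2 * b)) / 2| ≤ 3 * b := by
        rw [abs_le]; constructor <;> linarith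
      obtain ⟨t, ht⟩ : ∃ t, 2 * e = t + 1 := ⟨2 * e - 1, by omega⟩
      rw [ht, Nat.add_sub_cancel, mul_one_div, div_le_div_iff₀ (by positivity) (by positivity), pow_succ]
      calc |(2 * h b - h (2 * b) - 1 / (2 * b)) / 2| * (b : ℝ) ^ t ≤ (3 * b) * (b : ℝ) ^ t :=
            mul_le_mul_of_nonneg_right h7 (by positivity)
        _ = 3 * ((b : ℝ) ^ t * b) := by ring
  have hf := sum_f (2 * e - 1) (by omega)
  have hg := sum_g (2 * e) (fun a => (a : ℝ)) (fun a => by positivity)
    (fun b => (2 * h b - h (2 * b) - 1 / (2 * b)) / 2) (fun b hb => (sum_a b hb).1) hS (by omega)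
  have h1 := hf.sub hg
  have h2 := (hasSum_R (2 * e))
  have e1 : (fun p : ℕ × ℕ => if 0 < p.1 ∧ p.1 < p.2 then
      ∑ n ∈ (Finset.Icc 2 (2 * e)).filter Even, 1 / (p.1 : ℝ) ^ (2 * e + 1 - n) * (1 / (p.2 : ℝ) ^ n) else 0) =
      fun p : ℕ × ℕ => (if 0 < p.1 ∧ p.1 < p.2 then
        1 / (p.1 : ℝ) ^ (2 * e - 1) * (1 / ((p.2 : ℝ) ^ 2 - (p.1 : ℝ) ^ 2)) else 0) -
        (if 0 < p.1 ∧ p.1 < p.2 then
        1 / (p.2 : ℝ) ^ (2 * e) * ((p.1 : ℝ) / ((p.2 : ℝ) ^ 2 - (p.1 : ℝ) ^ 2)) else 0) := by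
    funext p
    split_ifs with hp
    · have hp1 : (0 : ℝ) < p.1 := by exact_mod_cast hp.1
      have hp2 : (p.1 : ℝ) < p.2 := by exact_mod_cast hp.2
      have hp3 : (0 : ℝ) < p.2 := by linarith
      have hp4 : (p.2 : ℝ) ^ 2 - (p.1 : ℝ) ^ 2 ≠ 0 := by nlinarith
      rw [sum_even e (2 * e) (Or.inl rfl)]
      obtain ⟨X, hX⟩ : ∃ X, X = 1 / (p.1 : ℝ) := ⟨_, rfl⟩
      obtain ⟨Y, hY⟩ : ∃ Y, Y = 1 / (p.2 : ℝ) := ⟨_, rfl⟩
      have hg := geom e X Y
      have e2 : ∑ l ∈ range e, 1 / (p.1 : ℝ) ^ (2 * e + 1 - (2 * l + 2)) * (1 / (p.2 : ℝ) ^ (2 * l + 2)) =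
          X * Y ^ 2 * ∑ l ∈ range e, X ^ (2 * (e - 1 - l)) * Y ^ (2 * l) := by
        rw [mul_sum]
        refine sum_congr rfl fun l hl => ?_
        have := mem_range.1 hl
        rw [← one_div_pow, ← one_div_pow, ← hX, ← hY, show 2 * e + 1 - (2 * l + 2) = 2 * (e - 1 - l) + 1 by omega]
        ring
      rw [e2]
      have hX1 : X * p.1 = 1 := by rw [hX]; field_simp
      have hY1 : Y * p.2 = 1 := by rw [hY]; field_simp
      have hX0 : X ≠ 0 := by rw [hX]; positivity
      have hY0 : Y ≠ 0 := by rw [hY]; positivity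
      have e3 : 1 / (p.1 : ℝ) ^ (2 * e - 1) = X ^ (2 * e - 1) := by rw [hX, one_div_pow]
      have e4 : 1 / (p.2 : ℝ) ^ (2 * e) = Y ^ (2 * e) := by rw [hY, one_div_pow]
      have e5 : X ^ (2 * e) = X ^ (2 * e - 1) * X := by rw [← pow_succ]; congr 1; omega
      rw [e3, e4]
      rw [e5] at hg
      have hp1' : (p.1 : ℝ) = 1 / X := by rw [hX]; field_simp
      have hp2' : (p.2 : ℝ) = 1 / Y := by rw [hY]; field_simp
      rw [hp1', hp2'] at hp4 ⊢
      have hne : X ^ 2 - Y ^ 2 ≠ 0 := by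
        intro h0
        apply hp4
        field_simp
        linear_combination h0
      set Sg := ∑ l ∈ range e, X ^ (2 * (e - 1 - l)) * Y ^ (2 * l) with hSg
      have hSv : Sg = (X ^ (2 * e - 1) * X - Y ^ (2 * e)) / (X ^ 2 - Y ^ 2) := by
        rw [eq_div_iff hne]; linear_combination hg
      have e6 : (1 / Y) ^ 2 - (1 / X) ^ 2 = (X ^ 2 - Y ^ 2) / (X ^ 2 * Y ^ 2) := by
        field_simp
      rw [hSv, e6]
      field_simp
    · simp
  rw [e1] at h2
  have h3 := h2.unique h1
  rw [h3, show 2 * e - 1 + 1 = 2 * e by omega]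
  have s1 : Summable fun k : ℕ => h (2 * k) / (2 * (k : ℝ) ^ (2 * e)) := by
    refine Summable.of_nonneg_of_le (fun a => div_nonneg (h_nonneg _) (by positivity)) (fun a => ?_)
      (Real.summable_one_div_nat_pow.2 (by omega : 1 < 2 * e - 1))
    rcases Nat.eq_zero_or_pos a with rfl | ha
    · simp [h]
    · have ha' : (0 : ℝ) < a := by positivity
      obtain ⟨t, ht⟩ : ∃ t, 2 * e = t + 1 := ⟨2 * e - 1, by omega⟩
      rw [ht, Nat.add_sub_cancel, div_le_div_iff₀ (by positivity) (by positivity)]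
      have := h_le (2 * a)
      push_cast at this
      calc h (2 * a) * (a : ℝ) ^ t ≤ (2 * a) * (a : ℝ) ^ t := mul_le_mul_of_nonneg_right this (by positivity)
        _ = 1 * (2 * (a : ℝ) ^ (t + 1)) := by ring
  have s3 : Summable fun k : ℕ => 1 / (k : ℝ) ^ (2 * e + 1) := Real.summable_one_div_nat_pow.2 (by omega)
  have e7 : ∀ k : ℕ, (h (2 * k) - h k) / (k : ℝ) ^ (2 * e) =
      h (2 * k) / (2 * (k : ℝ) ^ (2 * e)) - ((2 * h k - h (2 * k) - 1 / (2 * k)) / 2) / (k : ℝ) ^ (2 * e) -
        (1 / 4) * (1 / (k : ℝ) ^ (2 * e + 1)) := by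
    intro k
    rcases Nat.eq_zero_or_pos k with rfl | hk
    · simp [h]
    · have hk' : (k : ℝ) ≠ 0 := by positivity
      rw [pow_succ]
      field_simp
      ring
  rw [tsum_congr e7, (s1.sub hS).tsum_sub (s3.mul_left _), s1.tsum_sub hS, tsum_mul_left]
  ring

theorem R_odd (e : ℕ) (he : 1 ≤ e) : R (2 * e + 1) = (3 / 4) * ∑' k : ℕ, 1 / (k : ℝ) ^ (2 * e + 2) := by
  have hS : Summable fun b : ℕ => ((h (2 * b) - 3 / (2 * b)) / (2 * b)) / (b : ℝ) ^ (2 * e) := by
    refine Summable.of_norm_bounded (Real.summable_one_div_nat_pow.2 (by omega : 1 < 2 * e) |>.mul_left 4) fun b => ?_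
    rcases Nat.eq_zero_or_pos b with rfl | hb
    · have h1 : 2 * e ≠ 0 := by omega
      have h2 : (((0 : ℕ) : ℝ)) ^ (2 * e) = 0 := by rw [Nat.cast_zero]; exact zero_pow h1
      rw [h2, div_zero, norm_zero]
      positivity
    · have hb' : (1 : ℝ) ≤ b := by exact_mod_cast hb
      have h2 := h_le (2 * b)
      have h4 := h_nonneg (2 * b)
      push_cast at h2
      have h5 : 3 / (2 * (b : ℝ)) ≤ 2 * b := by
        rw [div_le_iff₀ (by positivity)]; nlinarith
      have h6 : 0 ≤ 3 / (2 * (b : ℝ)) := by positivity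
      rw [Real.norm_eq_abs, abs_div, abs_of_nonneg (by positivity : (0 : ℝ) ≤ (b : ℝ) ^ (2 * e)), mul_one_div]
      apply div_le_div_of_nonneg_right _ (by positivity)
      rw [abs_div, abs_of_nonneg (by positivity : (0 : ℝ) ≤ 2 * b), div_le_iff₀ (by positivity), abs_le]
      constructor <;> nlinarith
  have hf := sum_f (2 * e) (by omega)
  have hS' : ∀ b : ℕ, 0 < b → ∑ a ∈ range b, (if 0 < a then (fun _ : ℕ => (1 : ℝ)) a / ((b : ℝ) ^ 2 - (a : ℝ) ^ 2) else 0) =
      (fun b : ℕ => (h (2 * b) - 3 / (2 * b)) / (2 * b)) b := fun b hb => (sum_a b hb).2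
  have hg := sum_g (2 * e) (fun _ => (1 : ℝ)) (fun a => by positivity)
    (fun b => (h (2 * b) - 3 / (2 * b)) / (2 * b)) hS' hS (by omega)
  have h1 := hf.sub hg
  have h2 := (hasSum_R (2 * e + 1))
  have e1 : (fun p : ℕ × ℕ => if 0 < p.1 ∧ p.1 < p.2 then
      ∑ n ∈ (Finset.Icc 2 (2 * e + 1)).filter Even, 1 / (p.1 : ℝ) ^ (2 * e + 1 + 1 - n) * (1 / (p.2 : ℝ) ^ n) else 0) =
      fun p : ℕ × ℕ => (if 0 < p.1 ∧ p.1 < p.2 then
        1 / (p.1 : ℝ) ^ (2 * e) * (1 / ((p.2 : ℝ) ^ 2 - (p.1 : ℝ) ^ 2)) else 0) -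
        (if 0 < p.1 ∧ p.1 < p.2 then
        1 / (p.2 : ℝ) ^ (2 * e) * (1 / ((p.2 : ℝ) ^ 2 - (p.1 : ℝ) ^ 2)) else 0) := by
    funext p
    split_ifs with hp
    · have hp1 : (0 : ℝ) < p.1 := by exact_mod_cast hp.1
      have hp2 : (p.1 : ℝ) < p.2 := by exact_mod_cast hp.2
      have hp3 : (0 : ℝ) < p.2 := by linarith
      have hp4 : (p.2 : ℝ) ^ 2 - (p.1 : ℝ) ^ 2 ≠ 0 := by nlinarith
      rw [sum_even e (2 * e + 1) (Or.inr rfl)]
      obtain ⟨X, hX⟩ : ∃ X, X = 1 / (p.1 : ℝ) := ⟨_, rfl⟩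
      obtain ⟨Y, hY⟩ : ∃ Y, Y = 1 / (p.2 : ℝ) := ⟨_, rfl⟩
      have hg := geom e X Y
      have e2 : ∑ l ∈ range e, 1 / (p.1 : ℝ) ^ (2 * e + 1 + 1 - (2 * l + 2)) * (1 / (p.2 : ℝ) ^ (2 * l + 2)) =
          X ^ 2 * Y ^ 2 * ∑ l ∈ range e, X ^ (2 * (e - 1 - l)) * Y ^ (2 * l) := by
        rw [mul_sum]
        refine sum_congr rfl fun l hl => ?_
        have := mem_range.1 hl
        rw [← one_div_pow, ← one_div_pow, ← hX, ← hY, show 2 * e + 1 + 1 - (2 * l + 2) = 2 * (e - 1 - l) + 2 by omega]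
        ring
      rw [e2]
      have hX0 : X ≠ 0 := by rw [hX]; positivity
      have hY0 : Y ≠ 0 := by rw [hY]; positivity
      have e3 : 1 / (p.1 : ℝ) ^ (2 * e) = X ^ (2 * e) := by rw [hX, one_div_pow]
      have e4 : 1 / (p.2 : ℝ) ^ (2 * e) = Y ^ (2 * e) := by rw [hY, one_div_pow]
      rw [e3, e4]
      have hp1' : (p.1 : ℝ) = 1 / X := by rw [hX]; field_simp
      have hp2' : (p.2 : ℝ) = 1 / Y := by rw [hY]; field_simp
      rw [hp1', hp2'] at hp4 ⊢
      have hne : X ^ 2 - Y ^ 2 ≠ 0 := by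
        intro h0
        apply hp4
        field_simp
        linear_combination h0
      set Sg := ∑ l ∈ range e, X ^ (2 * (e - 1 - l)) * Y ^ (2 * l) with hSg
      have hSv : Sg = (X ^ (2 * e) - Y ^ (2 * e)) / (X ^ 2 - Y ^ 2) := by
        rw [eq_div_iff hne]; linear_combination hg
      have e6 : (1 / Y) ^ 2 - (1 / X) ^ 2 = (X ^ 2 - Y ^ 2) / (X ^ 2 * Y ^ 2) := by
        field_simp
      rw [hSv, e6]
      field_simp
    · simp
  rw [e1] at h2
  have h3 := h2.unique h1
  rw [h3]
  have s1 : Summable fun k : ℕ => h (2 * k) / (2 * (k : ℝ) ^ (2 * e + 1)) := by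
    refine Summable.of_nonneg_of_le (fun a => div_nonneg (h_nonneg _) (by positivity)) (fun a => ?_)
      (Real.summable_one_div_nat_pow.2 (by omega : 1 < 2 * e))
    rcases Nat.eq_zero_or_pos a with rfl | ha
    · simp [h]
    · have ha' : (0 : ℝ) < a := by positivity
      rw [div_le_div_iff₀ (by positivity) (by positivity)]
      have := h_le (2 * a)
      push_cast at this
      calc h (2 * a) * (a : ℝ) ^ (2 * e) ≤ (2 * a) * (a : ℝ) ^ (2 * e) := mul_le_mul_of_nonneg_right this (by positivity)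
        _ = 1 * (2 * (a : ℝ) ^ (2 * e + 1)) := by ring
  rw [← s1.tsum_sub hS, ← tsum_mul_left]
  refine tsum_congr fun k => ?_
  rcases Nat.eq_zero_or_pos k with rfl | hk
  · simp [h]
  · have hk' : (k : ℝ) ≠ 0 := by positivity
    rw [pow_succ, pow_add]
    field_simp
    ring

end RHS

section Final

theorem h_diff (k : ℕ) (hk : 0 < k) : 1 / 2 ≤ h (2 * k) - h k := by
  have key : ∀ m : ℕ, m ≤ k → (m : ℝ) / (2 * k) ≤ h (k + m) - h k := by
    intro m
    induction m with
    | zero => intro _; simp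
    | succ m ih =>
      intro hm
      have h1 := ih (by omega)
      rw [← add_assoc, h_succ]
      push_cast
      have h2 : 1 / (2 * (k : ℝ)) ≤ 1 / ((k : ℝ) + m + 1) := by
        apply one_div_le_one_div_of_le (by positivity)
        have : ((m + 1 : ℕ) : ℝ) ≤ k := by exact_mod_cast hm
        push_cast at this
        linarith
      have h3 : ((m : ℝ) + 1) / (2 * k) = (m : ℝ) / (2 * k) + 1 / (2 * k) := by ring
      rw [h3]
      linarith
  have h1 := key k le_rfl
  have hk' : (k : ℝ) ≠ 0 := by positivity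
  have h2 : (k : ℝ) / (2 * k) = 1 / 2 := by field_simp
  rw [h2] at h1
  rw [two_mul k]
  exact h1

theorem R_eq (d : ℕ) : ∑ p ∈ (Finset.HasAntidiagonal.antidiagonal (d + 1)).filter (fun p => 1 ≤ p.1 ∧ 2 ≤ p.2 ∧ Even p.2),
    eulerSum [(p.1, 1), (p.2, 1)] = R d := by
  unfold R
  refine sum_bij' (fun p _ => p.2) (fun n _ => (d + 1 - n, n)) ?_ ?_ ?_ ?_ ?_
  · intro p hp
    rw [mem_filter, HasAntidiagonal.mem_antidiagonal] at hp
    rw [mem_filter, mem_Icc]
    exact ⟨⟨hp.2.2.1, by omega⟩, hp.2.2.2⟩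
  · intro n hn
    rw [mem_filter, mem_Icc] at hn
    rw [mem_filter, HasAntidiagonal.mem_antidiagonal]
    exact ⟨by simp only; omega, by simp only; omega, hn.1.1, hn.2⟩
  · intro p hp
    rw [mem_filter, HasAntidiagonal.mem_antidiagonal] at hp
    ext
    · simp only; omega
    · rfl
  · intro n _
    rfl
  · intro p hp
    rw [mem_filter, HasAntidiagonal.mem_antidiagonal] at hp
    rw [show d + 1 - p.2 = p.1 by omega]

end Final

/-- **The sharp sum `ζ♯(2, 1_{d-3}, 2̄)`.** For every `d ≥ 3` the identity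
`ζ♯(2, 1_{d-3}, 2̄) = ½ ζ(d+1) - 2 ∑ ζ(m, n)` (sum over `m + n = d + 1`, `m ≥ 1`, `n ≥ 2` even) holds if and only if
`d` is even. -/
theorem result (d : ℕ) (hd : 3 ≤ d) :
    sharp ((2, 1) :: (List.replicate (d - 3) (1, 1) ++ [(2, -1)])) =
      1 / 2 * eulerSum [(d + 1, 1)] -
        2 * ∑ p ∈ (Finset.HasAntidiagonal.antidiagonal (d + 1)).filter (fun p => 1 ≤ p.1 ∧ 2 ≤ p.2 ∧ Even p.2),
          eulerSum [(p.1, 1), (p.2, 1)] ↔ Even d := by
  rw [R_eq, eulerSum_one (d + 1) (by omega)]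
  have h0 : sharp ((2, 1) :: (List.replicate (d - 3) (1, 1) ++ [(2, -1)])) =
      2 * ∑' k : ℕ, (h k - h (2 * k)) / (k : ℝ) ^ d := by
    have h1 := sharp_value (d - 3)
    rw [show d - 3 + 3 = d by omega] at h1
    exact h1
  have hneg : ∑' k : ℕ, (h k - h (2 * k)) / (k : ℝ) ^ d = - ∑' k : ℕ, (h (2 * k) - h k) / (k : ℝ) ^ d := by
    rw [← tsum_neg]
    exact tsum_congr fun k => by ring
  rw [h0, hneg]
  rcases Nat.even_or_odd d with hev | hodd
  · refine ⟨fun _ => hev, fun _ => ?_⟩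
    obtain ⟨e, he⟩ := hev
    obtain rfl : d = 2 * e := by omega
    rw [R_even e (by omega)]
    ring
  · refine ⟨fun heq => ?_, fun hev => absurd hev (Nat.not_even_iff_odd.2 hodd)⟩
    exfalso
    obtain ⟨e, he⟩ := hodd
    subst he
    rw [R_odd e (by omega)] at heq
    have s1 : Summable fun k : ℕ => (h (2 * k) - h k) / (k : ℝ) ^ (2 * e + 1) := by
      refine Summable.of_nonneg_of_le (fun k => ?_) (fun k => ?_)
        ((Real.summable_one_div_nat_pow.2 (by omega : 1 < 2 * e)).mul_left 2)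
      · rcases Nat.eq_zero_or_pos k with rfl | hk
        · simp
        · have := h_diff k hk
          apply div_nonneg _ (by positivity)
          linarith
      · rcases Nat.eq_zero_or_pos k with rfl | hk
        · simp
        · have hk' : (0 : ℝ) < k := by positivity
          have h1 := h_le (2 * k)
          have h2 := h_nonneg k
          push_cast at h1
          rw [mul_one_div, div_le_div_iff₀ (by positivity) (by positivity)]
          calc (h (2 * k) - h k) * (k : ℝ) ^ (2 * e) ≤ (2 * k) * (k : ℝ) ^ (2 * e) :=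
                mul_le_mul_of_nonneg_right (by linarith) (by positivity)
            _ = 2 * (k : ℝ) ^ (2 * e + 1) := by ring
    have s2 : Summable fun k : ℕ => 1 / (k : ℝ) ^ (2 * e + 2) := Real.summable_one_div_nat_pow.2 (by omega)
    have h3 : 0 < ∑' k : ℕ, (2 * ((h (2 * k) - h k) / (k : ℝ) ^ (2 * e + 1)) - 1 / (k : ℝ) ^ (2 * e + 2)) := by
      apply ((s1.mul_left 2).sub s2).tsum_pos _ 2
      · have h1 := h_diff 2 (by norm_num)
        have e1 : 2 * ((h (2 * 2) - h 2) / ((2 : ℕ) : ℝ) ^ (2 * e + 1)) - 1 / ((2 : ℕ) : ℝ) ^ (2 * e + 2) =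
            (2 * (h (2 * 2) - h 2) - 1 / 2) / ((2 : ℕ) : ℝ) ^ (2 * e + 1) := by
          push_cast
          rw [pow_succ (2 : ℝ) (2 * e + 1)]
          field_simp
        rw [e1]
        apply div_pos
        · linarith
        · positivity
      · intro k
        rcases Nat.eq_zero_or_pos k with rfl | hk
        · simp
        · have hk' : (1 : ℝ) ≤ k := by exact_mod_cast hk
          have h1 := h_diff k hk
          have e1 : 2 * ((h (2 * k) - h k) / (k : ℝ) ^ (2 * e + 1)) - 1 / (k : ℝ) ^ (2 * e + 2) =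
              (2 * (h (2 * k) - h k) - 1 / k) / (k : ℝ) ^ (2 * e + 1) := by
            rw [pow_succ (k : ℝ) (2 * e + 1)]
            field_simp
          rw [e1]
          apply div_nonneg _ (by positivity)
          have : 1 / (k : ℝ) ≤ 1 := by rw [div_le_one (by positivity)]; exact hk'
          linarith
    rw [(s1.mul_left 2).tsum_sub s2, tsum_mul_left] at h3
    linarith

end Pool.Agent.Results.MP_27090e_nt.SharpSumParity
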